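import Mathlib

set_option autoImplicit false

namespace Pool.Agent.Results.MP_ed45fc_co.NotWeak

open SimpleGraph

/-- `P` is an `H`-scheme in `G`, the vertices of `H` sitting in `G` through `r`. -/
def IsScheme {V W : Type} (G : SimpleGraph V) (H : SimpleGraph W) (r : W ↪ V)
    (P : ∀ u v, H.Adj u v → G.Walk (r u) (r v)) : Prop :=
  (∀ u v h, P v u (H.adj_symm h) = (P u v h).reverse) ∧
  (∀ u v h, (P u v h).IsPath ∧ ∀ w, r w ∈ (P u v h).support → w = u ∨ w = v) ∧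
  ∀ S : Set H.Dart, S.Nonempty → (∃ x, ∀ e ∈ S, x ∈ (P e.fst e.snd e.adj).support) →
    ∃ w, ∀ e ∈ S, w = e.fst ∨ w = e.snd

/-- `G` has an `H`-minor. -/
def HasMinor {V W : Type} (G : SimpleGraph V) (H : SimpleGraph W) : Prop :=
  ∃ C : W → G.Subgraph, (∀ v, (C v).Connected) ∧
    (∀ u v, u ≠ v → Disjoint (C u).verts (C v).verts) ∧
    ∀ u v, H.Adj u v → ∃ x ∈ (C u).verts, ∃ y ∈ (C v).verts, G.Adj x y

def WeaklyContractible {W : Type} (H : SimpleGraph W) : Prop :=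
  ∀ (V : Type) [Finite V] (G : SimpleGraph V) (r : W ↪ V)
    (P : ∀ u v, H.Adj u v → G.Walk (r u) (r v)), IsScheme G H r P → HasMinor G H

def E : List (ℕ × ℕ) := [(3, 4), (5, 6), (0, 2), (1, 2), (0, 3), (0, 5), (1, 4), (1, 6)]
def th (a b : ℕ) : Bool := (a, b) ∈ E || (b, a) ∈ E
def ad (a b : ℕ) : Bool := a != b &&
  if a < 7 then (if b < 7 then !th a b else 14 ≤ b || th a (b - 7))
  else if a < 14 then b < 14 && th (a - 7) (b % 7) else b < 7 || 14 ≤ b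

def G : SimpleGraph (Fin 22) where
  Adj a b := ad a b
  symm := ⟨by decide +kernel⟩
  loopless := ⟨by decide +kernel⟩

instance : DecidableRel G.Adj := fun a b => inferInstanceAs (Decidable (ad a b = true))

def r : Fin 15 ↪ Fin 22 := ⟨fun i => if i.1 < 7 then ⟨i, by omega⟩ else ⟨i + 7, by omega⟩, by decide⟩
def p (i : Fin 15) : Fin 22 := ⟨i + 7, by omega⟩

theorem key : ∀ u v : Fin 15, u ≠ v → ¬ G.Adj (r u) (r v) →
    G.Adj (r u) (p v) ∧ G.Adj (p v) (p u) ∧ G.Adj (p u) (r v) := by decide +kernel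

def P (u v : Fin 15) (h : (⊤ : SimpleGraph (Fin 15)).Adj u v) : G.Walk (r u) (r v) :=
  if e : G.Adj (r u) (r v) then .cons e .nil
  else .cons (key u v h e).1 (.cons (key u v h e).2.1 (.cons (key u v h e).2.2 .nil))

theorem P_supp (u v : Fin 15) (h) : (P u v h).support =
    if G.Adj (r u) (r v) then [r u, r v] else [r u, p v, p u, r v] := by
  unfold P; split_ifs <;> rfl

def ow (x : Fin 22) : Fin 15 := if x.1 < 7 then ⟨x.1 % 15, by omega⟩ else ⟨x - 7, by omega⟩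

theorem scheme : IsScheme G ⊤ r P := by
  refine ⟨fun u v h => ?_, fun u v h => ⟨?_, ?_⟩, ?_⟩
  · apply Walk.ext_support
    rw [Walk.support_reverse, P_supp, P_supp]
    by_cases e : G.Adj (r u) (r v)
    · rw [if_pos e, if_pos e.symm]; rfl
    · rw [if_neg e, if_neg fun k => e k.symm]; rfl
  · rw [Walk.isPath_def, P_supp]; revert u v; decide +kernel
  · rw [P_supp]; revert u v; decide +kernel
  · rintro S - ⟨x, hx⟩
    refine ⟨ow x, fun e he => ?_⟩
    have := hx e he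
    rw [P_supp] at this
    have k : ∀ (u v : Fin 15) (x : Fin 22),
        x ∈ (if G.Adj (r u) (r v) then [r u, r v] else [r u, p v, p u, r v]) → u ≠ v →
        ow x = u ∨ ow x = v := by decide +kernel
    exact k _ _ _ this e.adj

def lit (φ : ℕ → ℕ) (l : ℕ × ℕ) : Prop := if l.1 = 7 then ∀ y < 7, φ y ≠ l.2 else l.1 < 7 ∧ φ l.1 = l.2
def cf (l m : ℕ × ℕ) : Bool :=
  if l.1 = 7 then m.1 != 7 && l.2 == m.2 else if m.1 = 7 then l.2 == m.2 else l.1 == m.1 && l.2 != m.2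
def go : List (ℕ × ℕ) → List (List (List (ℕ × ℕ))) → Bool
  | _, [] => false
  | s, c :: cs => if c.any (fun t => t.all (· ∈ s)) then go s cs else
      c.all fun t => t.any (fun l => s.any (cf l)) || go (t ++ s) cs

theorem go_ok (φ : ℕ → ℕ) (cs : List (List (List (ℕ × ℕ)))) (s : List (ℕ × ℕ))
    (h : go s cs = true) (hs : ∀ l ∈ s, lit φ l) (hc : ∀ c ∈ cs, ∃ t ∈ c, ∀ l ∈ t, lit φ l) :
    False := by
  induction cs generalizing s with
  | nil => simp [go] at h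
  | cons c cs ih =>
    unfold go at h
    split_ifs at h
    · exact ih s h hs fun c' k => hc c' (List.mem_cons_of_mem _ k)
    obtain ⟨t, h1, h2⟩ := hc c List.mem_cons_self
    rcases Bool.or_eq_true_iff.1 (List.all_eq_true.1 h t h1) with k | k
    · obtain ⟨l, a, k⟩ := List.any_eq_true.1 k
      obtain ⟨m, b, k⟩ := List.any_eq_true.1 k
      have x := h2 l a
      have y := hs m b
      unfold lit at x y
      unfold cf at k
      by_cases e1 : l.1 = 7 <;> by_cases e2 : m.1 = 7 <;> simp [e1, e2] at x y k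
      · exact x _ y.1 (y.2.trans k.symm)
      · exact y _ x.1 (x.2.trans k)
      · exact k.2 (x.2.symm.trans (k.1 ▸ y.2))
    · exact ih _ k (fun l a => (List.mem_append.1 a).elim (h2 l) (hs l))
        fun c' k => hc c' (List.mem_cons_of_mem _ k)

def nbr (v : ℕ) : List ℕ := (List.range 7).filter (th v)
def cN (v : ℕ) : List (List (ℕ × ℕ)) := [(7, v)] :: (nbr v).map fun y => [(y, v)]
def cE (e : ℕ × ℕ) : List (List (ℕ × ℕ)) := (nbr e.1).map (fun y => [(y, e.2)]) ++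
  (nbr e.2).map (fun y => [(y, e.1)]) ++
  (List.range 7).flatMap fun x => (nbr x).map fun y => [(x, e.1), (y, e.2)]

theorem unsat : go [] ((List.range 7).map cN ++ E.map cE) = true := by decide +kernel

def q (y : Fin 7) : Fin 22 := ⟨y + 7, by omega⟩
theorem k0 : ∀ x : Fin 22, x.1 < 14 → (∃ u, x = r u) ∨ ∃ y, x = q y := by decide +kernel
theorem k1 : ∀ x : Fin 22, 14 ≤ x.1 → ∃ w, r w = x ∧ ¬ w.1 < 7 := by decide +kernel
theorem k2 : ∀ x y : Fin 22, 14 ≤ x.1 → G.Adj x y → ∃ w, r w = y := by decide +kernel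
theorem a1 : ∀ (u : Fin 15) (y : Fin 7), u.1 < 7 → G.Adj (r u) (q y) → y.1 ∈ nbr u := by
  decide +kernel
theorem a2 : ∀ x y : Fin 7, G.Adj (q x) (q y) → y.1 ∈ nbr x := by decide +kernel
theorem a3 : ∀ (u : Fin 15) (y : Fin 7), r u ≠ q y := by decide +kernel
theorem a4 : ∀ e ∈ E, e.1 < 7 ∧ e.2 < 7 ∧ e.1 ≠ e.2 ∧ ∀ (h1 : e.1 < 15) (h2 : e.2 < 15),
    ¬ G.Adj (r ⟨e.1, h1⟩) (r ⟨e.2, h2⟩) := by decide +kernel

theorem result : ¬ WeaklyContractible (⊤ : SimpleGraph (Fin 15)) := by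
  intro h
  obtain ⟨C, c1, c2, c3⟩ := h _ G r P scheme
  have uq : ∀ x u v, x ∈ (C u).verts → x ∈ (C v).verts → u = v := fun x u v a b =>
    by_contra fun n => Set.disjoint_left.1 (c2 u v n) a b
  obtain ⟨i, hi⟩ : ∃ i, ∀ x ∈ (C i).verts, 14 ≤ x.1 := by
    by_contra! k
    choose f f1 f2 using k
    have := Fintype.card_le_of_injective (fun i => (⟨f i, f2 i⟩ : Fin 14)) fun a b e =>
      uq _ _ _ (f1 a) (by rw [show f a = f b from Fin.ext (Fin.mk.inj e)]; exact f1 b)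
    simp at this
  have hg : ∀ j, ∃ w, r w ∈ (C j).verts ∧ (w.1 < 7 → ∀ x ∈ (C j).verts, x.1 < 14) := fun j => by
    by_cases k : ∃ x ∈ (C j).verts, 14 ≤ x.1
    · obtain ⟨x, a, b⟩ := k
      obtain ⟨w, rfl, c⟩ := k1 x b
      exact ⟨w, a, fun d => absurd d c⟩
    · push Not at k
      have n : i ≠ j := by
        rintro rfl
        obtain ⟨x, a⟩ := (c1 i).nonempty
        exact absurd (hi x a) (not_le.2 (k x a))
      obtain ⟨x, a, y, b, e⟩ := c3 i j n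
      obtain ⟨w, rfl⟩ := k2 x y (hi x a) e
      exact ⟨w, b, fun _ => k⟩
  choose g g1 g2 using hg
  have gi : Function.Injective g := fun a b e => uq _ _ _ (g1 a) (e ▸ g1 b)
  choose J hJ using Finite.injective_iff_surjective.1 gi
  have J1 : ∀ w, r w ∈ (C (J w)).verts := fun w => by have := g1 (J w); rwa [hJ] at this
  have Ji : ∀ a b, J a = J b → a = b := fun a b e => by rw [← hJ a, e, hJ]
  have ho' : ∀ y : ℕ, ∃ v : ℕ, ∀ (h : y < 7) (w : Fin 15), w.1 < 7 →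
      (q ⟨y, h⟩ ∈ (C (J w)).verts ↔ v = w) := fun y => by
    by_cases k : ∃ (h : y < 7) (w : Fin 15), q ⟨y, h⟩ ∈ (C (J w)).verts
    · obtain ⟨h, w, a⟩ := k
      exact ⟨w, fun _ w' _ => ⟨fun b => by rw [Ji _ _ (uq _ _ _ a b)], fun e => Fin.ext e ▸ a⟩⟩
    · exact ⟨7, fun h w l => ⟨fun a => absurd ⟨h, w, a⟩ k, fun e => by omega⟩⟩
  choose φ hφ using ho'
  have mem : ∀ (w : Fin 15), w.1 < 7 → ∀ x ∈ (C (J w)).verts,
      x = r w ∨ ∃ y, ∃ h : y < 7, x = q ⟨y, h⟩ ∧ φ y = w := fun w l x a => by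
    have b := g2 (J w) (by rwa [hJ]) x a
    rcases k0 x b with ⟨u, rfl⟩ | ⟨y, rfl⟩
    · exact .inl (by rw [Ji _ _ (uq _ _ _ a (J1 u))])
    · exact .inr ⟨y, y.2, rfl, (hφ y y.2 w l).1 a⟩
  have L : ∀ y v, y < 7 → φ y = v → lit φ (y, v) := fun y v a b => by
    simp [lit, a.ne, a, b]
  refine go_ok φ _ [] unsat (by simp) fun c hc => ?_
  rcases List.mem_append.1 hc with k | k
  · obtain ⟨v, hv, rfl⟩ := List.mem_map.1 k
    rw [List.mem_range] at hv
    by_cases n : ∀ y < 7, φ y ≠ v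
    · exact ⟨_, List.mem_cons_self, by simpa [lit] using n⟩
    push Not at n
    obtain ⟨y, hy, e⟩ := n
    have m := (hφ y hy ⟨v, by omega⟩ hv).2 e
    obtain ⟨w⟩ := (c1 _).coe.preconnected ⟨_, J1 ⟨v, by omega⟩⟩ ⟨_, m⟩
    obtain ⟨z, hz, -⟩ := Walk.exists_eq_cons_of_ne
      (fun e => a3 ⟨v, by omega⟩ ⟨y, hy⟩ (congrArg Subtype.val e)) w
    have hz := (C _).adj_sub hz
    rcases mem ⟨v, by omega⟩ hv z z.2 with k | ⟨x, h1, k, h2⟩ <;> rw [k] at hz
    · exact absurd hz G.irrefl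
    · exact ⟨[(x, v)], List.mem_cons_of_mem _ (List.mem_map.2 ⟨x, a1 _ ⟨x, h1⟩ hv hz, rfl⟩),
        by simpa using L _ _ h1 h2⟩
  · obtain ⟨e, he, rfl⟩ := List.mem_map.1 k
    obtain ⟨b1, b2, b3, b4⟩ := a4 e he
    obtain ⟨x, hx, y, hy, a⟩ := c3 (J ⟨e.1, by omega⟩) (J ⟨e.2, by omega⟩)
      fun k => b3 (Fin.mk.inj (Ji _ _ k))
    rcases mem _ b1 x hx with rfl | ⟨x, h1, rfl, h2⟩ <;>
      rcases mem _ b2 y hy with rfl | ⟨y, h3, rfl, h4⟩
    · exact absurd a (b4 _ _)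
    · exact ⟨[(y, e.2)], by simpa [cE] using .inl (a1 _ ⟨y, h3⟩ b1 a), by simpa using L _ _ h3 h4⟩
    · refine ⟨[(x, e.1)], ?_, by simpa using L _ _ h1 h2⟩
      exact List.mem_append_left _ (List.mem_append_right _
        (List.mem_map.2 ⟨x, a1 _ ⟨x, h1⟩ b2 a.symm, rfl⟩))
    · refine ⟨[(x, e.1), (y, e.2)], List.mem_append_right _ (List.mem_flatMap.2
        ⟨x, List.mem_range.2 h1, List.mem_map.2 ⟨y, a2 ⟨x, h1⟩ ⟨y, h3⟩ a, rfl⟩⟩), ?_⟩
      simpa using ⟨L _ _ h1 h2, L _ _ h3 h4⟩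

end Pool.Agent.Results.MP_ed45fc_co.NotWeak
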